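import Pool.Agent.H175R2.Cw

/-! Clique-width in the form "every family of labelled graphs closed under the four operations
contains the graph", from decomposition trees. -/

namespace Pool.Agent.H175G.Cwp

open Finset Classical
open Pool.Agent.H175R2 (DT nt on mem_on exists_code)

variable {V : Type}

/-- families of labelled graphs on subsets of `V` closed under the four operations -/
def Closed (k : ℕ) (P : Set V → (V → Fin k) → SimpleGraph V → Prop) : Prop :=
  (∀ (v : V) (l0 : V → Fin k), P ({v} : Set V) l0 ⊥) ∧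
  (∀ (S1 S2 : Set V) (l1 l2 l0 : V → Fin k) (H1 H2 : SimpleGraph V),
      P S1 l1 H1 → P S2 l2 H2 → Disjoint S1 S2 →
      (∀ u ∈ S1, l0 u = l1 u) → (∀ u ∈ S2, l0 u = l2 u) →
      P (S1 ∪ S2) l0 (H1 ⊔ H2)) ∧
  (∀ (S : Set V) (l0 : V → Fin k) (H H' : SimpleGraph V) (i j : Fin k),
      P S l0 H → i ≠ j →
      (∀ u v : V, H'.Adj u v ↔ (H.Adj u v ∨
          (u ∈ S ∧ v ∈ S ∧ ((l0 u = i ∧ l0 v = j) ∨ (l0 u = j ∧ l0 v = i))))) →
      P S l0 H') ∧
  (∀ (S : Set V) (l0 l' : V → Fin k) (H : SimpleGraph V) (i j : Fin k),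
      P S l0 H →
      (∀ u ∈ S, (l0 u = i → l' u = j) ∧ (l0 u ≠ i → l' u = l0 u)) →
      P S l' H)

/-- the restriction of a graph to a set, as a graph on `V` -/
def rs (H : SimpleGraph V) (A : Finset V) : SimpleGraph V where
  Adj x y := H.Adj x y ∧ x ∈ A ∧ y ∈ A
  symm := ⟨fun _ _ h => ⟨h.1.symm, h.2.2, h.2.1⟩⟩
  loopless := ⟨fun _ h => H.loopless.irrefl _ h.1⟩

/-- the graph `H` restricted to `A`, labelled by `l`, can be built -/
def EB (k : ℕ) (H : SimpleGraph V) (A : Finset V) (l : V → Fin k) : Prop :=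
  ∀ P, Closed k P → P (A : Set V) l (rs H A)

lemma EB.congr {k : ℕ} {H H' : SimpleGraph V} {A : Finset V} {l l' : V → Fin k} (h : EB k H A l)
    (h1 : ∀ x ∈ A, ∀ y ∈ A, (H.Adj x y ↔ H'.Adj x y)) (h2 : ∀ x ∈ A, l x = l' x) :
    EB k H' A l' := by
  intro P hP
  have e : rs H A = rs H' A := by
    ext x y
    constructor
    · rintro ⟨h3, h4, h5⟩; exact ⟨(h1 x h4 y h5).1 h3, h4, h5⟩
    · rintro ⟨h3, h4, h5⟩; exact ⟨(h1 x h4 y h5).2 h3, h4, h5⟩
  have h3 := h P hP
  rw [e] at h3
  by_cases hV : Nonempty V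
  · obtain ⟨v⟩ := hV
    refine hP.2.2.2 _ l l' _ (l v) (l v) h3 fun u hu => ⟨fun h => ?_, fun _ => ?_⟩
    · rw [← h2 u (by exact_mod_cast hu), h]
    · rw [← h2 u (by exact_mod_cast hu)]
  · have : l = l' := by funext x; exact absurd ⟨x⟩ hV
    rw [← this]; exact h3

lemma EB.single {k : ℕ} {H : SimpleGraph V} (x : V) (l : V → Fin k) : EB k H {x} l := by
  intro P hP
  have e : rs H {x} = ⊥ := by
    ext a b
    simp only [SimpleGraph.bot_adj, iff_false]
    rintro ⟨h1, h2, h3⟩
    rw [mem_singleton] at h2 h3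
    subst h2; subst h3; exact H.loopless.irrefl _ h1
  rw [e]
  simpa using hP.1 x l

lemma EB.union {k : ℕ} {H : SimpleGraph V} {A B : Finset V} {l : V → Fin k} (hd : Disjoint A B)
    (hno : ∀ x ∈ A, ∀ y ∈ B, ¬ H.Adj x y) (hA : EB k H A l) (hB : EB k H B l) :
    EB k H (A ∪ B) l := by
  intro P hP
  have e : rs H (A ∪ B) = rs H A ⊔ rs H B := by
    ext x y
    constructor
    · rintro ⟨h1, h2, h3⟩
      rcases mem_union.1 h2 with h2 | h2 <;> rcases mem_union.1 h3 with h3 | h3
      · exact Or.inl ⟨h1, h2, h3⟩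
      · exact absurd h1 (hno x h2 y h3)
      · exact absurd h1.symm (hno y h3 x h2)
      · exact Or.inr ⟨h1, h2, h3⟩
    · rintro (⟨h1, h2, h3⟩ | ⟨h1, h2, h3⟩)
      · exact ⟨h1, mem_union_left _ h2, mem_union_left _ h3⟩
      · exact ⟨h1, mem_union_right _ h2, mem_union_right _ h3⟩
  rw [e, coe_union]
  exact hP.2.1 _ _ l l l _ _ (hA P hP) (hB P hP) (by exact_mod_cast hd) (fun _ _ => rfl)
    (fun _ _ => rfl)

lemma EB.join {k : ℕ} {H : SimpleGraph V} {A : Finset V} {l : V → Fin k} {i j : Fin k} (hij : i ≠ j)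
    (h : EB k H A l) : EB k (H ⊔ SimpleGraph.fromRel (fun u v => l u = i ∧ l v = j)) A l := by
  intro P hP
  refine hP.2.2.1 _ l _ _ i j (h P hP) hij fun u v => ?_
  simp only [rs, SimpleGraph.sup_adj, SimpleGraph.fromRel_adj, mem_coe]
  constructor
  · rintro ⟨h1 | ⟨h1, h2 | h2⟩, h3, h4⟩
    · exact Or.inl ⟨h1, h3, h4⟩
    · exact Or.inr ⟨h3, h4, Or.inl h2⟩
    · exact Or.inr ⟨h3, h4, Or.inr ⟨h2.2, h2.1⟩⟩
  · rintro (⟨h1, h3, h4⟩ | ⟨h3, h4, h2 | h2⟩)
    · exact ⟨Or.inl h1, h3, h4⟩
    · exact ⟨Or.inr ⟨fun h => hij (by rw [← h2.1, ← h2.2, h]), Or.inl h2⟩, h3, h4⟩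
    · exact ⟨Or.inr ⟨fun h => hij (by rw [← h2.1, ← h2.2, h]), Or.inr ⟨h2.2, h2.1⟩⟩, h3, h4⟩

lemma EB.relabel {k : ℕ} {H : SimpleGraph V} {A : Finset V} {l : V → Fin k} (i j : Fin k)
    (h : EB k H A l) : EB k H A (fun v => if l v = i then j else l v) := by
  intro P hP
  refine hP.2.2.2 _ l _ _ i j (h P hP) fun u _ => ⟨fun h => ?_, fun h => ?_⟩
  · simp [h]
  · simp [h]

lemma EB.relabelMany {k : ℕ} {H : SimpleGraph V} {A : Finset V} (g : Fin k → Fin k)
    (I : Finset (Fin k)) : (∀ i ∈ I, g i ∉ I) → ∀ l : V → Fin k, EB k H A l →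
    EB k H A (fun v => if l v ∈ I then g (l v) else l v) := by
  induction I using Finset.induction_on with
  | empty => intro _ l h; simpa using h
  | insert a s ha ih =>
    intro hg l h
    have h1 := ih (fun i hi hgi => hg i (mem_insert_of_mem hi) (mem_insert_of_mem hgi)) l h
    refine (h1.relabel a (g a)).congr (fun _ _ _ _ => Iff.rfl) fun x _ => ?_
    simp only [mem_insert]
    by_cases hx : l x ∈ s
    · have : g (l x) ≠ a := fun h => hg (l x) (mem_insert_of_mem hx) (h ▸ mem_insert_self _ _)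
      simp [hx, this]
    · by_cases hxa : l x = a
      · simp [hxa, ha]
      · simp [hx, hxa]

lemma EB.joinMany {k : ℕ} {H : SimpleGraph V} {A : Finset V} {l : V → Fin k}
    (P : Finset (Fin k × Fin k)) : (∀ p ∈ P, p.1 ≠ p.2) → EB k H A l →
    EB k (H ⊔ SimpleGraph.fromRel (fun u v => (l u, l v) ∈ P)) A l := by
  induction P using Finset.induction_on with
  | empty =>
    intro _ h
    refine h.congr (fun x _ y _ => ?_) fun _ _ => rfl
    simp
  | insert a s ha ih =>
    intro hP h
    have h1 := ih (fun p hp => hP p (mem_insert_of_mem hp)) h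
    refine (h1.join (hP a (mem_insert_self _ _))).congr (fun x _ y _ => ?_) fun _ _ => rfl
    obtain ⟨a1, a2⟩ := a
    simp only [SimpleGraph.sup_adj, SimpleGraph.fromRel_adj, mem_insert, Prod.mk.injEq]
    tauto

theorem eb_of_dt [Fintype V] {G : SimpleGraph V} {K : ℕ} {A : Finset V} (h : DT G K univ A) :
    ∃ l : V → Fin (3 * (K + 1)), (∀ x ∈ A, (l x).val < K + 1) ∧
      (∀ x ∈ A, ∀ y ∈ A, l x = l y → on G univ A x = on G univ A y) ∧ EB (3 * (K + 1)) G A l := by
  induction h with
  | leaf x =>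
    refine ⟨fun _ => ⟨0, by omega⟩, fun _ _ => by simp, ?_, EB.single _ _⟩
    intro a ha b hb _
    rw [mem_singleton] at ha hb
    rw [ha, hb]
  | @node A B hd _ _ hnt ihA ihB =>
    obtain ⟨l1, hl1, ht1, hb1⟩ := ihA
    obtain ⟨l2, hl2, ht2, hb2⟩ := ihB
    -- shift the labels of B
    let g1 : Fin (3 * (K + 1)) → Fin (3 * (K + 1)) := fun i =>
      if h : i.val < K + 1 then ⟨i.val + (K + 1), by omega⟩ else i
    have hb2' := EB.relabelMany g1 (univ.filter (fun i : Fin (3 * (K + 1)) => i.val < K + 1)) (by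
      intro i hi
      simp only [mem_filter, mem_univ, true_and] at hi ⊢
      simp only [g1, hi, dif_pos]; omega) l2 hb2
    set l2' : V → Fin (3 * (K + 1)) := fun v => if l2 v ∈ (univ.filter (fun i : Fin (3 * (K + 1)) => i.val < K + 1)) then g1 (l2 v) else l2 v with hl2'
    have hv2 : ∀ x ∈ B, (l2' x).val = (l2 x).val + (K + 1) := by
      intro x hx
      have := hl2 x hx
      simp only [hl2', g1, mem_filter, mem_univ, true_and, this, if_true, dif_pos]
    let l : V → Fin (3 * (K + 1)) := fun x => if x ∈ A then l1 x else l2' x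
    have hlA : ∀ x ∈ A, l x = l1 x := fun x hx => by simp [l, hx]
    have hBA : ∀ x ∈ B, x ∉ A := fun x hx hxA => (Finset.disjoint_left.1 hd) hxA hx
    have hlB : ∀ x ∈ B, l x = l2' x := fun x hx => by simp [l, hBA x hx]
    let H0 : SimpleGraph V := { Adj := fun x y => G.Adj x y ∧ (x ∈ A ↔ y ∈ A),
                                symm := ⟨fun x y h => ⟨h.1.symm, h.2.symm⟩⟩,
                                loopless := ⟨fun x h => G.loopless.irrefl x h.1⟩ }
    have hA' : EB (3 * (K + 1)) H0 A l := hb1.congr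
      (fun x hx y hy => by simp [H0, hx, hy]) (fun x hx => (hlA x hx).symm)
    have hB' : EB (3 * (K + 1)) H0 B l := hb2'.congr
      (fun x hx y hy => by simp [H0, hBA x hx, hBA y hy]) (fun x hx => (hlB x hx).symm)
    have hAB : EB (3 * (K + 1)) H0 (A ∪ B) l := EB.union hd (fun x hx y hy h => by
      have h2 := h.2
      simp [hx, hBA y hy] at h2) hA' hB'
    have hvA : ∀ x ∈ A, (l x).val < K + 1 := fun x hx => by rw [hlA x hx]; exact hl1 x hx
    have hvB : ∀ x ∈ B, K + 1 ≤ (l x).val ∧ (l x).val < 2 * (K + 1) := fun x hx => by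
      have h2 := hl2 x hx
      have h3 := hv2 x hx
      rw [hlB x hx]; omega
    -- joins
    let P : Finset (Fin (3 * (K + 1)) × Fin (3 * (K + 1))) := univ.filter (fun p =>
      ∃ x ∈ A, ∃ y ∈ B, l x = p.1 ∧ l y = p.2 ∧ G.Adj x y)
    have hJ := hAB.joinMany P (by
      rintro ⟨i, j⟩ hp
      simp only [P, mem_filter, mem_univ, true_and] at hp
      obtain ⟨x, hx, y, hy, h1, h2, _⟩ := hp
      have a1 := hvA x hx
      have a2 := hvB y hy
      intro h
      simp only at h h1 h2
      rw [h1] at a1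
      rw [h2] at a2
      rw [h] at a1
      omega)
    have same1 : ∀ x ∈ A, ∀ y ∈ A, l x = l y → on G univ A x = on G univ A y := by
      intro x hx y hy h
      rw [hlA x hx, hlA y hy] at h
      exact ht1 x hx y hy h
    have same2 : ∀ x ∈ B, ∀ y ∈ B, l x = l y → on G univ B x = on G univ B y := by
      intro x hx y hy h
      rw [hlB x hx, hlB y hy] at h
      have h3 := hv2 x hx
      have h4 := hv2 y hy
      rw [h] at h3
      exact ht2 x hx y hy (Fin.ext (by omega))
    have cross : ∀ x ∈ A, ∀ y ∈ B, ((l x, l y) ∈ P ↔ G.Adj x y) := by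
      intro x hx y hy
      simp only [P, mem_filter, mem_univ, true_and]
      constructor
      · rintro ⟨x', hx', y', hy', h1, h2, h3⟩
        have e1 := same1 x' hx' x hx h1
        have e2 := same2 y' hy' y hy h2
        have m1 : y' ∈ on G univ A x' := mem_on.2 ⟨⟨mem_univ _, hBA y' hy'⟩, h3⟩
        rw [e1, mem_on] at m1
        have m2 : x ∈ on G univ B y' := mem_on.2 ⟨⟨mem_univ _, fun h => hBA x h hx⟩, m1.2.symm⟩
        rw [e2, mem_on] at m2
        exact m2.2.symm
      · intro h
        exact ⟨x, hx, y, hy, rfl, rfl, h⟩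
    have hG : EB (3 * (K + 1)) G (A ∪ B) l := by
      refine hJ.congr (fun x hx y hy => ?_) (fun _ _ => rfl)
      simp only [SimpleGraph.sup_adj, SimpleGraph.fromRel_adj, H0]
      have noP : ∀ u v : V, (l u, l v) ∈ P → (l u).val < K + 1 ∧ K + 1 ≤ (l v).val := by
        intro u v hp
        simp only [P, mem_filter, mem_univ, true_and] at hp
        obtain ⟨x, hx, y, hy, h1, h2, _⟩ := hp
        have := hvA x hx
        have := hvB y hy
        rw [← h1, ← h2]; omega
      rcases mem_union.1 hx with hxA | hxB <;> rcases mem_union.1 hy with hyA | hyB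
      · have h1 : (l x, l y) ∉ P := fun h => by have := noP _ _ h; have := hvA y hyA; omega
        have h2 : (l y, l x) ∉ P := fun h => by have := noP _ _ h; have := hvA x hxA; omega
        simp [h1, h2, hxA, hyA]
      · have h2 : (l y, l x) ∉ P := fun h => by have := noP _ _ h; have := hvA x hxA; omega
        rw [cross x hxA y hyB]
        have hne : x ≠ y := by rintro rfl; exact hBA x hyB hxA
        simp [h2, hxA, hBA y hyB, hne]
      · have h2 : (l x, l y) ∉ P := fun h => by have := noP _ _ h; have := hvA y hyA; omega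
        rw [cross y hyA x hxB]
        have hne : x ≠ y := by rintro rfl; exact hBA x hxB hyA
        simp [h2, hyA, hBA x hxB, hne, G.adj_comm]
      · have h1 : (l x, l y) ∉ P := fun h => by have := noP _ _ h; have := hvB x hxB; omega
        have h2 : (l y, l x) ∉ P := fun h => by have := noP _ _ h; have := hvB y hyB; omega
        simp [h1, h2, hBA x hxB, hBA y hyB]
    -- final relabelling
    obtain ⟨τ, hτ1, hτ2⟩ := exists_code ((A ∪ B).image (on G univ (A ∪ B))) (K + 1) (by
      unfold nt at hnt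
      have := Finset.card_le_card (Finset.subset_insert_iff.2
        (Finset.Subset.refl (((A ∪ B).image (on G univ (A ∪ B))).erase ∅)))
      exact this.trans ((Finset.card_insert_le _ _).trans (by omega))) (by omega)
    have sameAB : ∀ x ∈ A ∪ B, ∀ y ∈ A ∪ B, l x = l y → on G univ (A ∪ B) x = on G univ (A ∪ B) y := by
      intro x hx y hy h
      rcases mem_union.1 hx with hxA | hxB <;> rcases mem_union.1 hy with hyA | hyB
      · have := same1 x hxA y hyA h
        ext z
        have hz := congrArg (fun s => z ∈ s) this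
        simp only [mem_on, eq_iff_iff] at hz
        simp only [mem_on, mem_union]
        tauto
      · exfalso
        have := hvA x hxA; have := hvB y hyB; rw [h] at *; omega
      · exfalso
        have := hvA y hyA; have := hvB x hxB; rw [h] at *; omega
      · have := same2 x hxB y hyB h
        ext z
        have hz := congrArg (fun s => z ∈ s) this
        simp only [mem_on, eq_iff_iff] at hz
        simp only [mem_on, mem_union]
        tauto
    let g2 : Fin (3 * (K + 1)) → Fin (3 * (K + 1)) := fun i =>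
      if h : ∃ x ∈ A ∪ B, l x = i then ⟨2 * (K + 1) + τ (on G univ (A ∪ B) h.choose), by
        have := hτ1 (on G univ (A ∪ B) h.choose); omega⟩ else ⟨2 * (K + 1), by omega⟩
    have hg2 : ∀ x ∈ A ∪ B, (g2 (l x)).val = 2 * (K + 1) + τ (on G univ (A ∪ B) x) := by
      intro x hx
      have h : ∃ y ∈ A ∪ B, l y = l x := ⟨x, hx, rfl⟩
      simp only [g2, h, dif_pos]
      rw [sameAB _ h.choose_spec.1 x hx h.choose_spec.2]
    have h5 := EB.relabelMany g2 (univ.filter (fun i : Fin (3 * (K + 1)) => i.val < 2 * (K + 1))) (by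
      intro i hi
      simp only [mem_filter, mem_univ, true_and, g2]
      split_ifs <;> simp) l hG
    let g3 : Fin (3 * (K + 1)) → Fin (3 * (K + 1)) := fun i => ⟨i.val - 2 * (K + 1), by omega⟩
    have h6 := EB.relabelMany g3 (univ.filter (fun i : Fin (3 * (K + 1)) => 2 * (K + 1) ≤ i.val)) (by
      intro i hi
      simp only [mem_filter, mem_univ, true_and, g3]
      omega) _ h5
    let lf : V → Fin (3 * (K + 1)) := fun x => ⟨τ (on G univ (A ∪ B) x), by
      have := hτ1 (on G univ (A ∪ B) x); omega⟩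
    refine ⟨lf, fun x _ => hτ1 _, fun x hx y hy h => ?_, h6.congr (fun _ _ _ _ => Iff.rfl) fun x hx => ?_⟩
    · have := congrArg Fin.val h
      exact hτ2 _ (mem_image_of_mem _ hx) _ (mem_image_of_mem _ hy) this
    · have hlt : (l x).val < 2 * (K + 1) := by
        rcases mem_union.1 hx with hxA | hxB
        · have := hvA x hxA; omega
        · exact (hvB x hxB).2
      have := hg2 x hx
      apply Fin.ext
      simp only [mem_filter, mem_univ, true_and, hlt, if_true, g3, lf]
      rw [if_pos (by omega)]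
      simp only [this]
      omega

/-- from decomposition trees to expressions, in predicate form -/
theorem built_of_dt [Fintype V] {G : SimpleGraph V} {K : ℕ} (h : DT G K univ univ) :
    ∃ l : V → Fin (3 * (K + 1)), ∀ P, Closed (3 * (K + 1)) P → P Set.univ l G := by
  obtain ⟨l, _, _, h⟩ := eb_of_dt h
  refine ⟨l, fun P hP => ?_⟩
  have := h P hP
  have e : rs G univ = G := by
    ext x y; simp [rs]
  rw [e] at this
  simpa using this

end Pool.Agent.H175G.Cwp
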