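import Pool.Agent.H175G.Stmts

/-! Basic lemmas about `BD`. -/

namespace Pool.Agent.H175G

open Finset Classical
open Pool.Agent.H175R2 (DT nt on cpt Cn P4Free mem_on nt_le_of_label nt_le_of_inj nt_module nt_closed
  dt_cograph nt_le_pow)

variable {V : Type} {G : SimpleGraph V}

lemma BD.mono {K K' : ℕ} {A : Finset V} (h : BD G K A) (hK : K ≤ K') : BD G K' A :=
  fun hA => (h hA).mono hK

lemma BD.empty {K : ℕ} : BD G K (∅ : Finset V) := fun h => by simp at h

lemma BD.singleton {K : ℕ} {x : V} : BD G K ({x} : Finset V) := fun _ => DT.leaf x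

/-- restricting the ambient set and the set -/
lemma nt_restrict {R S A : Finset V} (hS : S ⊆ R) : nt G S (A ∩ S) ≤ nt G R A := by
  unfold nt
  apply Finset.card_le_card_of_surjOn (fun s => s ∩ S)
  intro s hs
  simp only [coe_erase, coe_image, Set.mem_sdiff, Set.mem_image, Set.mem_singleton_iff,
    Finset.mem_coe] at hs ⊢
  obtain ⟨⟨x, hx, rfl⟩, hne⟩ := hs
  rw [mem_inter] at hx
  have e : on G R A x ∩ S = on G S (A ∩ S) x := by
    ext z; simp only [mem_on, mem_inter]
    constructor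
    · rintro ⟨⟨⟨_, h2⟩, h3⟩, h4⟩; exact ⟨⟨h4, fun h => h2 h.1⟩, h3⟩
    · rintro ⟨⟨h1, h2⟩, h3⟩; exact ⟨⟨⟨hS h1, fun h => h2 ⟨h, h1⟩⟩, h3⟩, h1⟩
  refine ⟨on G R A x, ⟨⟨x, hx.1, rfl⟩, ?_⟩, e⟩
  intro h0
  rw [h0] at e
  exact hne (by rw [← e]; simp)

lemma DT.restrict {K : ℕ} {R S A : Finset V} (hS : S ⊆ R) (h : DT G K R A) :
    (A ∩ S).Nonempty → DT G K S (A ∩ S) := by
  induction h with
  | leaf x =>
    intro hne
    have : ({x} : Finset V) ∩ S = {x} := by
      obtain ⟨y, hy⟩ := hne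
      rw [mem_inter, mem_singleton] at hy
      ext z; simp only [mem_inter, mem_singleton]
      constructor
      · exact fun h => h.1
      · rintro rfl; exact ⟨rfl, hy.1 ▸ hy.2⟩
    rw [this]; exact DT.leaf x
  | @node A B hd _ _ h iA iB =>
    intro hne
    have e : (A ∪ B) ∩ S = (A ∩ S) ∪ (B ∩ S) := by
      ext z; simp only [mem_inter, mem_union]; tauto
    by_cases hA : (A ∩ S).Nonempty
    · by_cases hB : (B ∩ S).Nonempty
      · rw [e]
        refine DT.node ?_ (iA hA) (iB hB) ?_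
        · exact Finset.disjoint_of_subset_left inter_subset_left
            (Finset.disjoint_of_subset_right inter_subset_left hd)
        · rw [← e]; exact (nt_restrict hS).trans h
      · rw [not_nonempty_iff_eq_empty] at hB
        rw [e, hB, union_empty]; exact iA hA
    · rw [not_nonempty_iff_eq_empty] at hA
      rw [e, hA, empty_union]
      rw [e, hA, empty_union] at hne
      exact iB hne

lemma BD.sub {K : ℕ} {A B : Finset V} (h : BD G K A) (hB : B ⊆ A) : BD G K B := by
  intro hne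
  have e : A ∩ B = B := inter_eq_right.2 hB
  have := DT.restrict hB (h (hne.mono hB)) (by rw [e]; exact hne)
  rwa [e] at this

/-- adding few vertices -/
lemma BD.add {K : ℕ} {A : Finset V} (h : BD G K A) (X : Finset V) :
    BD G ((K + 1) * 2 ^ X.card) (A ∪ X) := by
  intro hne
  have hp : ∀ s : ℕ, 1 ≤ 2 ^ s := fun s => Nat.one_le_two_pow
  by_cases hA : (A \ X).Nonempty
  · have h1 := (h.sub (sdiff_subset (s := A) (t := X)) hA).add (X := X) sdiff_disjoint
    rwa [sdiff_union_self_eq_union] at h1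
  · rw [not_nonempty_iff_eq_empty, sdiff_eq_empty_iff_subset] at hA
    rw [union_eq_right.2 hA] at hne ⊢
    obtain ⟨x, hx⟩ := hne
    have h1 := (DT.leaf (G := G) (K := 0) (R := {x}) x).add (X := X.erase x) (by simp)
    have e : ({x} : Finset V) ∪ X.erase x = X := by
      rw [← Finset.insert_eq, insert_erase hx]
    rw [e] at h1
    refine h1.mono ?_
    calc (0 + 1) * 2 ^ (X.erase x).card ≤ 1 * 2 ^ X.card :=
          Nat.mul_le_mul (by omega) (Nat.pow_le_pow_right (by omega) (card_le_card (erase_subset _ _)))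
      _ ≤ (K + 1) * 2 ^ X.card := Nat.mul_le_mul_right _ (by omega)

/-- variant of `BD.add`: all but few vertices -/
lemma BD.of_sdiff {K c : ℕ} {A X : Finset V} (h : BD G K (A \ X)) (hX : X.card ≤ c) :
    BD G ((K + 1) * 2 ^ c) A := by
  have h1 := (h.add X).mono (K' := (K + 1) * 2 ^ c)
    (Nat.mul_le_mul_left _ (Nat.pow_le_pow_right (by omega) hX))
  exact h1.sub (by intro x hx; simp only [mem_union, mem_sdiff]; tauto)

lemma BD.card {A : Finset V} {c : ℕ} (h : A.card ≤ c) : BD G (2 ^ c) A := by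
  have := BD.of_sdiff (G := G) (K := 0) (c := c) (A := A) (X := A) (by rw [sdiff_self]; exact BD.empty) h
  simpa using this

lemma BD.cograph {A : Finset V} (h : P4Free G A) : BD G 1 A := fun hA =>
  dt_cograph A.card A A le_rfl hA (Subset.refl _) h (fun _ _ _ _ z hz hz' => absurd hz hz')

lemma BD.congr {H : SimpleGraph V} {K : ℕ} {A : Finset V} (h : BD G K A)
    (hGH : ∀ x ∈ A, ∀ y ∈ A, (G.Adj x y ↔ H.Adj x y)) : BD H K A := by
  intro hA
  have key : ∀ B ⊆ A, nt H A B = nt G A B := by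
    intro B hB
    unfold nt
    congr 2
    apply Finset.image_congr
    intro x hx
    ext z
    simp only [mem_on]
    constructor
    · rintro ⟨h1, h2⟩; exact ⟨h1, (hGH x (hB hx) z h1.1).2 h2⟩
    · rintro ⟨h1, h2⟩; exact ⟨h1, (hGH x (hB hx) z h1.1).1 h2⟩
  exact (h hA).transfer fun B hB hn => by rw [key B hB]; exact hn

/-- a tree for `A` in the ambient set `A` gives one in a larger ambient set `R`, if the vertices of
`A` have at most `c` different labels that determine their neighbourhoods in `R ∖ A` -/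
lemma BD.ambient {α : Type} {K : ℕ} {R A : Finset V} (h : BD G K A) (hA : A.Nonempty) (hAR : A ⊆ R)
    (F : Finset α) (l : V → α) (h1 : ∀ x ∈ A, l x ∈ F)
    (h2 : ∀ x ∈ A, ∀ y ∈ A, l x = l y → ∀ z ∈ R, z ∉ A → (G.Adj x z ↔ G.Adj y z)) :
    DT G ((K + 1) * F.card) R A := by
  refine (h hA).transfer fun B hB hn => ?_
  have h0 : nt G A B + 1 ≥ (insert ∅ (B.image (on G A B))).card := by
    unfold nt
    by_cases h : ∅ ∈ B.image (on G A B)
    · rw [insert_eq_of_mem h, card_erase_of_mem h]; omega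
    · rw [card_insert_of_notMem h, erase_eq_of_notMem h]
  have h3 : nt G R B ≤ ((insert ∅ (B.image (on G A B))) ×ˢ F).card := by
    apply nt_le_of_label _ (fun x => (on G A B x, l x))
    · intro x hx _
      simp only [mem_product]
      exact ⟨mem_insert_of_mem (mem_image_of_mem _ hx), h1 x (hB hx)⟩
    · intro x hx y hy _ _ he
      simp only [Prod.mk.injEq] at he
      ext z
      simp only [mem_on]
      have e1 : ∀ z, z ∈ on G A B x ↔ z ∈ on G A B y := by rw [he.1]; simp
      have e1 := e1 z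
      simp only [mem_on] at e1
      have e2 := h2 x (hB hx) y (hB hy) he.2 z
      by_cases hz : z ∈ A
      · constructor
        · rintro ⟨⟨h4, h5⟩, h6⟩; exact ⟨⟨h4, h5⟩, (e1.1 ⟨⟨hz, h5⟩, h6⟩).2⟩
        · rintro ⟨⟨h4, h5⟩, h6⟩; exact ⟨⟨h4, h5⟩, (e1.2 ⟨⟨hz, h5⟩, h6⟩).2⟩
      · constructor
        · rintro ⟨⟨h4, h5⟩, h6⟩; exact ⟨⟨h4, h5⟩, (e2 h4 hz).1 h6⟩
        · rintro ⟨⟨h4, h5⟩, h6⟩; exact ⟨⟨h4, h5⟩, (e2 h4 hz).2 h6⟩
  rw [card_product] at h3
  exact h3.trans (Nat.mul_le_mul_right _ (h0.le.trans (by omega)))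

/-! ### `P₄`-free sets -/

lemma p4free_of_nb {A : Finset V} (hg : NoGem G) {v : V} (h : ∀ x ∈ A, G.Adj v x) : P4Free G A := by
  intro a ha b hb c hc d hd hac had hbd hab hbc hcd
  by_contra hcon
  push Not at hcon
  exact hg a b c d v (h a ha) (h b hb) (h c hc) (h d hd) hab hbc hcd hcon.1 hcon.2.2 hcon.2.1

lemma p4free_of_clus {A : Finset V} (h : Clus G A) : P4Free G A := by
  intro a ha b hb c hc d hd hac had hbd hab hbc hcd
  exact Or.inl (h a ha b hb c hc hab hbc hac)

lemma clus_of_ind {A : Finset V} (h : Ind G A) : Clus G A :=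
  fun x hx y hy _ _ h1 => absurd h1 (h x hx y hy)

lemma clus_of_clq {A : Finset V} (h : Clq G A) : Clus G A :=
  fun x hx _ _ z hz _ _ hne => h x hx z hz hne

lemma Clus.sub {A B : Finset V} (h : Clus G A) (hB : B ⊆ A) : Clus G B :=
  fun x hx y hy z hz => h x (hB hx) y (hB hy) z (hB hz)

lemma Ind.sub {A B : Finset V} (h : Ind G A) (hB : B ⊆ A) : Ind G B :=
  fun x hx y hy => h x (hB hx) y (hB hy)

lemma Clq.sub {A B : Finset V} (h : Clq G A) (hB : B ⊆ A) : Clq G B :=
  fun x hx y hy => h x (hB hx) y (hB hy)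

lemma BD.clq {A : Finset V} (h : Clq G A) : BD G 1 A := BD.cograph (p4free_of_clus (clus_of_clq h))

lemma BD.ind {A : Finset V} (h : Ind G A) : BD G 1 A := BD.cograph (p4free_of_clus (clus_of_ind h))

lemma mem_nb {S : Finset V} {x y : V} : y ∈ nb G S x ↔ y ∈ S ∧ G.Adj x y := by simp [nb]

end Pool.Agent.H175G
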